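import Pool.Agent.Leo4.Stmts
import Pool.Agent.Helper68_Leo4.Basic

/-!
# Squad leo4: modules INJ and GAL

The field `Km m` determines `m`; there are few `m` with `Km m` Galois.
-/

set_option autoImplicit false

open NumberField IsDedekindDomain Module Filter Topology MeasureTheory
open Pool.Agent.Helper85_Leo Pool.Agent.Leo3

namespace Pool.Agent.Leo4.H69

open Pool.Agent.Leo4

section ring

variable [IsPrincipalIdealRing O]

/-- `3 m b² = a²` with `3 ∤ m` is impossible for `b ≠ 0` -/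
theorem irrO (h3 : Prime (3 : O)) {m : O} (hm : ¬ (3 : O) ∣ m) {a b : O}
    (h : 3 * m * b ^ 2 = a ^ 2) : b = 0 := by
  by_contra hb
  obtain ⟨a', b', c, hrel, ha, hb'⟩ := UniqueFactorizationMonoid.exists_reduced_factors' a b hb
  have hc : c ≠ 0 := by
    rintro rfl
    exact hb (by rw [← hb', zero_mul])
  have h1 : 3 * m * b' ^ 2 = a' ^ 2 := by
    have h2 : c ^ 2 * (3 * m * b' ^ 2) = c ^ 2 * a' ^ 2 := by
      rw [← ha, ← hb'] at h
      linear_combination h
    exact mul_left_cancel₀ (pow_ne_zero 2 hc) h2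
  have h2 : (3 : O) ∣ a' := by
    refine h3.dvd_of_dvd_pow (n := 2) ?_
    rw [← h1]
    exact ⟨m * b' ^ 2, by ring⟩
  obtain ⟨a'', ha''⟩ := h2
  have h4 : m * b' ^ 2 = 3 * a'' ^ 2 := by
    have h5 : (3 : O) * (m * b' ^ 2) = 3 * (3 * a'' ^ 2) := by
      rw [ha''] at h1
      linear_combination h1
    exact mul_left_cancel₀ h3.ne_zero h5
  have h5 : (3 : O) ∣ b' := by
    rcases h3.dvd_or_dvd (Dvd.intro _ h4.symm : (3 : O) ∣ m * b' ^ 2) with h | h
    · exact absurd h hm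
    · exact h3.dvd_of_dvd_pow h
  exact h3.not_unit (hrel ⟨a'', ha''⟩ h5)

/-- squarefree elements that differ by a square differ by the square of a unit -/
theorem squO {m m' a b : O} (hm : Squarefree m) (hm' : Squarefree m') (hb : b ≠ 0) (ha : a ≠ 0)
    (h : b ^ 2 * m' = a ^ 2 * m) : ∃ η : O, IsUnit η ∧ m' = η ^ 2 * m := by
  obtain ⟨a', b', c, hrel, ha', hb'⟩ := UniqueFactorizationMonoid.exists_reduced_factors' a b hb
  have hc : c ≠ 0 := by
    rintro rfl
    exact hb (by rw [← hb', zero_mul])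
  have h1 : b' ^ 2 * m' = a' ^ 2 * m := by
    have h2 : c ^ 2 * (b' ^ 2 * m') = c ^ 2 * (a' ^ 2 * m) := by
      rw [← ha', ← hb'] at h
      linear_combination h
    exact mul_left_cancel₀ (pow_ne_zero 2 hc) h2
  have hrel2 : IsRelPrime (a' ^ 2) (b' ^ 2) := hrel.pow
  have h2 : b' ^ 2 ∣ m := by
    have h3 : b' ^ 2 ∣ a' ^ 2 * m := ⟨m', h1.symm⟩
    exact hrel2.symm.dvd_of_dvd_mul_left h3
  have h3 : a' ^ 2 ∣ m' := by
    have h4 : a' ^ 2 ∣ b' ^ 2 * m' := ⟨m, h1⟩
    exact hrel2.dvd_of_dvd_mul_left h4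
  have hub : IsUnit b' := hm b' (by rw [← sq]; exact h2)
  have hua : IsUnit a' := hm' a' (by rw [← sq]; exact h3)
  obtain ⟨e, he⟩ := hub.exists_right_inv
  refine ⟨a' * e, hua.mul (IsUnit.of_mul_eq_one b' (by rw [mul_comm]; exact he)), ?_⟩
  have h5 : (b' * e) ^ 2 = 1 := by rw [he, one_pow]
  linear_combination e ^ 2 * h1 + (- m') * h5

end ring

theorem e1_two : e1 (2 : O) = 2 := by
  have h := e1_intCast 2
  exact_mod_cast h

theorem e1_three : e1 (3 : O) = 3 := by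
  have h := e1_intCast 3
  exact_mod_cast h

/-- the elements of `Km m` -/
theorem rep {m : O} (hm : 0 < e1 m) {z : ℝ} (hz : z ∈ Km m) :
    ∃ n : ℤ, n ≠ 0 ∧ ∃ x y : O, (n : ℝ) * z = e1 x + e1 y * Real.sqrt (3 * e1 m) := by
  have hr : Real.sqrt (3 * e1 m) ^ 2 = 3 * e1 m := Real.sq_sqrt (by positivity)
  have halg : ∀ x ∈ ({Real.goldenRatio, Real.sqrt (3 * e1 m)} : Set ℝ), IsAlgebraic ℚ x := by
    have hg : IsAlgebraic ℚ Real.goldenRatio := by
      refine ⟨Polynomial.X ^ 2 - Polynomial.X - 1, ?_, ?_⟩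
      · intro h
        have h1 := congrArg (fun p => Polynomial.coeff p 0) h
        simp [Polynomial.coeff_one] at h1
      · simp [Real.goldenRatio_sq]
    rintro x (rfl | hx)
    · exact hg
    · rw [Set.mem_singleton_iff] at hx
      have hmalg : IsAlgebraic ℚ (3 * e1 m) := by
        have h3 : IsAlgebraic ℚ (3 : ℝ) := by
          simpa using isAlgebraic_algebraMap (R := ℚ) (A := ℝ) 3
        have ha : IsAlgebraic ℚ ((m.re : ℤ) : ℝ) := by
          simpa using isAlgebraic_algebraMap (R := ℚ) (A := ℝ) (m.re : ℚ)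
        have hb : IsAlgebraic ℚ ((m.im : ℤ) : ℝ) := by
          simpa using isAlgebraic_algebraMap (R := ℚ) (A := ℝ) (m.im : ℚ)
        exact h3.mul (ha.add (hb.mul hg))
      have h2 : IsAlgebraic ℚ (x ^ 2) := by rw [hx, hr]; exact hmalg
      exact h2.of_pow (by norm_num)
  have hz' : z ∈ Algebra.adjoin ℚ ({Real.goldenRatio, Real.sqrt (3 * e1 m)} : Set ℝ) := by
    have h := IntermediateField.adjoin_toSubalgebra_of_isAlgebraic (F := ℚ) (E := ℝ) (S := {Real.goldenRatio, Real.sqrt (3 * e1 m)}) halg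
    rw [← h]
    exact hz
  clear hz
  induction hz' using Algebra.adjoin_induction with
  | mem x hx =>
    rcases hx with rfl | hx
    · exact ⟨1, one_ne_zero, phi, 0, by simp⟩
    · rw [Set.mem_singleton_iff] at hx
      exact ⟨1, one_ne_zero, 0, 1, by simp [hx]⟩
  | algebraMap q =>
    refine ⟨q.den, by exact_mod_cast q.den_ne_zero, (q.num : O), 0, ?_⟩
    have h := Rat.den_mul_eq_num q
    have h2 : ((q.den : ℚ) : ℝ) * (q : ℝ) = ((q.num : ℚ) : ℝ) := by exact_mod_cast h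
    simpa using h2
  | add z w _ _ hz hw =>
    obtain ⟨n, hn, x, y, h⟩ := hz
    obtain ⟨n', hn', x', y', h'⟩ := hw
    refine ⟨n * n', mul_ne_zero hn hn', (n' : O) * x + (n : O) * x', (n' : O) * y + (n : O) * y', ?_⟩
    simp only [e1_add, e1_mul, e1_intCast]
    push_cast
    linear_combination (n' : ℝ) * h + (n : ℝ) * h'
  | mul z w _ _ hz hw =>
    obtain ⟨n, hn, x, y, h⟩ := hz
    obtain ⟨n', hn', x', y', h'⟩ := hw
    refine ⟨n * n', mul_ne_zero hn hn', x * x' + 3 * m * (y * y'), x * y' + x' * y, ?_⟩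
    simp only [e1_add, e1_mul, e1_two, e1_three]
    push_cast
    linear_combination (n' : ℝ) * w * h + (e1 x + e1 y * Real.sqrt (3 * e1 m)) * h' +
      e1 y * e1 y' * hr

/-- the squares in `Km m` -/
theorem key [IsPrincipalIdealRing O] (h3 : Prime (3 : O)) {m m' : O} (hm : 0 < e1 m)
    (hm3 : ¬ (3 : O) ∣ m) (hm3' : ¬ (3 : O) ∣ m') (hsq : Squarefree m) (hsq' : Squarefree m')
    {s : ℝ} (hs : s ^ 2 = 3 * e1 m') (hK : s ∈ Km m) : ∃ η : O, IsUnit η ∧ m' = η ^ 2 * m := by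
  have hr : Real.sqrt (3 * e1 m) ^ 2 = 3 * e1 m := Real.sq_sqrt (by positivity)
  obtain ⟨n, hn, x, y, h⟩ := rep hm hK
  have hnO : (n : O) ≠ 0 := by exact_mod_cast hn
  have h1 : (n : ℝ) ^ 2 * (3 * e1 m') = e1 x ^ 2 + e1 y ^ 2 * (3 * e1 m) +
      2 * (e1 x * e1 y) * Real.sqrt (3 * e1 m) := by
    linear_combination (-(n : ℝ) ^ 2) * hs + ((n : ℝ) * s + e1 x + e1 y * Real.sqrt (3 * e1 m)) * h +
      e1 y ^ 2 * hr
  -- the mixed term vanishes
  have hxy : x = 0 ∨ y = 0 := by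
    by_contra hne
    push Not at hne
    have h2 : e1 (2 * (x * y)) * Real.sqrt (3 * e1 m) =
        e1 ((n : O) ^ 2 * (3 * m') - x ^ 2 - y ^ 2 * (3 * m)) := by
      simp only [e1_sub, e1_mul, e1_pow, e1_intCast, e1_two, e1_three]
      linear_combination -h1
    have h3' : 3 * m * (2 * (x * y)) ^ 2 =
        ((n : O) ^ 2 * (3 * m') - x ^ 2 - y ^ 2 * (3 * m)) ^ 2 := by
      apply e1_inj
      rw [e1_pow, ← h2]
      simp only [e1_mul, e1_pow, e1_two, e1_three]
      linear_combination (-(2 * (e1 x * e1 y)) ^ 2) * hr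
    have h4 := irrO h3 hm3 h3'
    have h5 : x * y = 0 := by
      rcases mul_eq_zero.mp h4 with h6 | h6
      · exfalso
        have h7 := congrArg e1 h6
        rw [e1_two, e1_zero] at h7
        norm_num at h7
      · exact h6
    rcases mul_eq_zero.mp h5 with h6 | h6
    · exact hne.1 h6
    · exact hne.2 h6
  rcases hxy with rfl | rfl
  · -- `n s = y r`
    have h2 : (n : O) ^ 2 * m' = y ^ 2 * m := by
      apply e1_inj
      simp only [e1_mul, e1_pow, e1_intCast]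
      rw [e1_zero] at h1
      linear_combination (1 / 3) * h1
    have hy : y ≠ 0 := by
      rintro rfl
      have h4 : (n : O) ^ 2 * m' = 0 := by rw [h2]; ring
      rcases mul_eq_zero.mp h4 with h5 | h5
      · exact hnO (pow_eq_zero_iff two_ne_zero |>.mp h5)
      · exact hsq'.ne_zero h5
    exact squO hsq hsq' hnO hy h2
  · exfalso
    have h2 : 3 * m' * (n : O) ^ 2 = x ^ 2 := by
      apply e1_inj
      simp only [e1_mul, e1_pow, e1_intCast, e1_two, e1_three]
      rw [e1_zero] at h1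
      linear_combination h1
    exact hnO (irrO h3 hm3' h2)

/-- the square of a unit is, up to inversion, an even power of `φ` -/
theorem unit_sq (huni : UniStmt) {η : O} (hη : IsUnit η) :
    ∃ n : ℕ, η ^ 2 = phi ^ (2 * n) ∨ η ^ 2 * phi ^ (2 * n) = 1 := by
  obtain ⟨n, h | h | h | h⟩ := huni η hη
  · exact ⟨n, Or.inl (by rw [h]; ring)⟩
  · exact ⟨n, Or.inl (by rw [h]; ring)⟩
  · refine ⟨n, Or.inr ?_⟩
    have h2 : η ^ 2 * phi ^ (2 * n) = (η * phi ^ n) ^ 2 := by ring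
    rw [h2, h, one_pow]
  · refine ⟨n, Or.inr ?_⟩
    have h2 : η ^ 2 * phi ^ (2 * n) = (η * phi ^ n) ^ 2 := by ring
    rw [h2, h]
    ring

/-- if `m' = η² m` with a unit `η`, then `m' = φ^(2n) m` or `m = φ^(2n) m'` -/
theorem unit_cases (huni : UniStmt) {m m' η : O} (hη : IsUnit η) (h : m' = η ^ 2 * m) :
    ∃ n : ℕ, m' = phi ^ (2 * n) * m ∨ m = phi ^ (2 * n) * m' := by
  obtain ⟨n, h1 | h1⟩ := unit_sq huni hη
  · exact ⟨n, Or.inl (by rw [h, h1])⟩
  · refine ⟨n, Or.inr ?_⟩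
    rw [h]
    linear_combination (-m) * h1

/-- the product of the conjugates of `φ ^ (2 n)` -/
theorem phi_pow (n : ℕ) : e1 (phi ^ (2 * n)) * e2 (phi ^ (2 * n)) = 1 := by
  rw [← nm_eq, nm_pow, nm_phi, pow_mul]
  norm_num

/-- the fundamental domain -/
theorem fd_uniq {m m' : O} (hm : Fd m) (hm' : Fd m') {n : ℕ} (h : m' = phi ^ (2 * n) * m) :
    m' = m := by
  rcases Nat.eq_zero_or_pos n with rfl | hn
  · simpa using h
  · exfalso
    have hg0 : 0 < g := Real.goldenRatio_pos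
    have hg1 : 1 < g := Real.one_lt_goldenRatio
    set G : ℝ := e1 (phi ^ (2 * n)) with hG
    have hGe : G = g ^ (2 * n) := by rw [hG, e1_pow, e1_phi]
    have hG2 : g ^ 2 ≤ G := by
      rw [hGe]
      exact pow_le_pow_right₀ hg1.le (by omega)
    have hGpos : 0 < G := lt_of_lt_of_le (by positivity) hG2
    have h1 : e1 m' = G * e1 m := by rw [h, e1_mul]
    have h2 : G * e2 m' = e2 m := by
      rw [h, e2_mul, ← mul_assoc, hG, phi_pow, one_mul]
    have h3 : e1 m' < g ^ 2 * e2 m' := hm'.2.2.1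
    have h4 : e2 m ≤ g ^ 2 * e1 m := hm.2.2.2
    have h5 : 0 < e1 m := hm.1
    have h6 : G * e1 m' < g ^ 2 * (g ^ 2 * e1 m) := by
      calc G * e1 m' < G * (g ^ 2 * e2 m') := mul_lt_mul_of_pos_left h3 hGpos
        _ = g ^ 2 * (G * e2 m') := by ring
        _ = g ^ 2 * e2 m := by rw [h2]
        _ ≤ g ^ 2 * (g ^ 2 * e1 m) := mul_le_mul_of_nonneg_left h4 (by positivity)
    have h7 : g ^ 2 * (g ^ 2 * e1 m) ≤ G * e1 m' := by
      rw [h1]
      have h8 : g ^ 2 * e1 m ≤ G * e1 m := mul_le_mul_of_nonneg_right hG2 h5.le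
      calc g ^ 2 * (g ^ 2 * e1 m) ≤ g ^ 2 * (G * e1 m) := mul_le_mul_of_nonneg_left h8 (by positivity)
        _ ≤ G * (G * e1 m) := mul_le_mul_of_nonneg_right hG2 (by positivity)
    exact absurd h6 (not_lt.mpr h7)

/-- `3` does not divide `m` -/
theorem three_not_dvd {m : O} (h : Cls m) : ¬ (3 : O) ∣ m := by
  have h1 := h.three 0
  simpa using h1

/-- INJ -/
theorem inj (hokr : OkrStmt) (huni : UniStmt) : InjStmt := by
  intro m m' hm hm' hf hf' hK
  haveI : IsPrincipalIdealRing O := hokr.2.1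
  have h3 : Prime (3 : O) := hokr.2.2.2.1
  have hs : Real.sqrt (3 * e1 m') ^ 2 = 3 * e1 m' :=
    Real.sq_sqrt (mul_nonneg (by norm_num) hm'.pos1.le)
  have hmem : Real.sqrt (3 * e1 m') ∈ Km m := by
    rw [hK]
    exact IntermediateField.subset_adjoin ℚ _ (by simp)
  obtain ⟨η, hη, h⟩ := key h3 hm.pos1 (three_not_dvd hm.cls) (three_not_dvd hm'.cls) hm.sqf hm'.sqf
    hs hmem
  obtain ⟨n, h1 | h1⟩ := unit_cases huni hη h
  · exact (fd_uniq hf hf' h1).symm
  · exact fd_uniq hf' hf h1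

end Pool.Agent.Leo4.H69
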