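import Pool.Agent.Leo4.Stmts
import Pool.Agent.Helper68_Leo4.Basic

/-!
# Squad leo4: module BAD

The number of `m` that have a normalised quadruple.
-/

set_option autoImplicit false

open NumberField IsDedekindDomain Module Filter Topology MeasureTheory
open Pool.Agent.Helper85_Leo Pool.Agent.Leo3

namespace Pool.Agent.Leo4.H69

open Pool.Agent.Leo4

/-- the discriminant of a quadruple -/
def fMv (v : V) : O := fM v.1 v.2.1 v.2.2.1 v.2.2.2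

/-- BAD -/
theorem bad (hltu : LtuStmt) (hdns : DnsStmt) (hvol : VolStmt) (hcpt : CptStmt) (hscl : SclStmt)
    (hcus : CusStmt) : BadStmt := by
  intro ε hε
  obtain ⟨C, hC, hscl⟩ := hscl
  obtain ⟨C', hC', hcus⟩ := hcus
  obtain ⟨S, hS, hdns⟩ := hdns
  -- choice of η
  set δ : ℝ := ε / (3 * C') with hδ
  have hδ0 : 0 < δ := by positivity
  set η : ℝ := min 1 (δ ^ 4) with hη
  have hη0 : 0 < η := lt_min one_pos (by positivity)
  have hη1 : η ≤ 1 := min_le_left _ _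
  have hη2 : η ^ (1 / 4 : ℝ) ≤ δ := by
    have h1 : η ^ (1 / 4 : ℝ) ≤ (δ ^ 4) ^ (1 / 4 : ℝ) :=
      Real.rpow_le_rpow hη0.le (min_le_right _ _) (by norm_num)
    have h2 : (δ ^ 4) ^ (1 / 4 : ℝ) = δ := by
      rw [← Real.rpow_natCast, ← Real.rpow_mul hδ0.le]
      norm_num
    exact h1.trans h2.le
  have hε3 : 0 < ε / 3 := by positivity
  obtain ⟨t₀, ht₀, hltu⟩ := hltu (Reg C η) (hcpt C η hη0) 6 S (ε / 3) hε3
  set t₁ : ℝ := max (max t₀ 1) (3 * C' / ε) with ht₁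
  have ht₁1 : 1 ≤ t₁ := (le_max_right _ _).trans (le_max_left _ _)
  refine ⟨t₁ ^ 8, ?_⟩
  intro N hN
  have hN0 : 0 < N := lt_of_lt_of_le (by positivity) hN
  -- the parameter `t`
  obtain ⟨t, htpos, htN⟩ : ∃ t : ℝ, 0 < t ∧ t ^ 8 = N := by
    refine ⟨N ^ (1 / 8 : ℝ), Real.rpow_pos_of_pos hN0 _, ?_⟩
    rw [← Real.rpow_natCast, ← Real.rpow_mul hN0.le]
    norm_num
  have htt₁ : t₁ ≤ t := by
    have h : t₁ ^ 8 ≤ t ^ 8 := by rw [htN]; exact hN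
    exact le_of_pow_le_pow_left₀ (by norm_num) htpos.le h
  have ht₀t : t₀ ≤ t := ((le_max_left _ _).trans (le_max_left _ _)).trans htt₁
  have ht1 : 1 ≤ t := ht₁1.trans htt₁
  have htC : 3 * C' / ε ≤ t := (le_max_right _ _).trans htt₁
  obtain ⟨hfin1, hcard1⟩ := hltu t ht₀t
  obtain ⟨hfin2, hcard2⟩ := hcus N η t ht1 htN hη0 hη1
  set A : Set V := {v : V | resV 6 v ∈ S ∧ t⁻¹ • emb v ∈ Reg C η} with hA
  set B : Set V := {v : V | Nrm N v ∧ |(nm v.1 : ℝ)| ≤ η * t ^ 2} with hB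
  have hsub : {m : O | ∃ v : V, Nrm N v ∧ fM v.1 v.2.1 v.2.2.1 v.2.2.2 = m} ⊆ fMv '' (A ∪ B) := by
    rintro m ⟨v, hv, rfl⟩
    refine ⟨v, ?_, rfl⟩
    rcases le_total (|(nm v.1 : ℝ)|) (η * t ^ 2) with h | h
    · exact Or.inr ⟨hv, h⟩
    · exact Or.inl ⟨hdns v.1 v.2.1 v.2.2.1 v.2.2.2 hv.cls2 hv.cls3,
        hscl N η t v htpos htN hv hη0 h⟩
  have hfinU : (A ∪ B).Finite := hfin1.union hfin2
  have hfinI : (fMv '' (A ∪ B)).Finite := hfinU.image _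
  refine ⟨hfinI.subset hsub, ?_⟩
  have hc1 : ({m : O | ∃ v : V, Nrm N v ∧ fM v.1 v.2.1 v.2.2.1 v.2.2.2 = m}.ncard : ℝ) ≤
      (A.ncard : ℝ) + (B.ncard : ℝ) := by
    have h1 := Set.ncard_le_ncard hsub hfinI
    have h2 := Set.ncard_image_le (f := fMv) hfinU
    have h3 := Set.ncard_union_le A B
    exact_mod_cast (h1.trans h2).trans h3
  -- volume
  have hv1 : (volume (Reg C η)).toReal ≤ Real.sqrt 5 * Real.pi ^ 2 * Real.log g ^ 2 / 2 := by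
    have h := ENNReal.toReal_mono ENNReal.ofReal_ne_top (hvol C η hη0)
    rwa [ENNReal.toReal_ofReal (by positivity)] at h
  have hS' : (S.card : ℝ) ≤ 259200 := by exact_mod_cast hS
  have hA' : (A.ncard : ℝ) ≤
      (259200 / 6 ^ 8 * (Real.sqrt 5 * Real.pi ^ 2 * Real.log g ^ 2 / 50) + ε / 3) * N := by
    refine hcard1.trans ?_
    rw [htN]
    refine mul_le_mul_of_nonneg_right ?_ hN0.le
    have h1 : (S.card : ℝ) / ((6 : ℕ) : ℝ) ^ 8 * (volume (Reg C η)).toReal / 25 ≤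
        259200 / 6 ^ 8 * (Real.sqrt 5 * Real.pi ^ 2 * Real.log g ^ 2 / 2) / 25 := by
      have h6 : (((6 : ℕ) : ℝ)) = 6 := by norm_num
      rw [h6]
      have h2 : (S.card : ℝ) / (6 : ℝ) ^ 8 ≤ 259200 / 6 ^ 8 := by
        exact div_le_div_of_nonneg_right hS' (by positivity)
      have h3 : (S.card : ℝ) / (6 : ℝ) ^ 8 * (volume (Reg C η)).toReal ≤
          259200 / 6 ^ 8 * (Real.sqrt 5 * Real.pi ^ 2 * Real.log g ^ 2 / 2) :=
        mul_le_mul h2 hv1 ENNReal.toReal_nonneg (by positivity)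
      exact div_le_div_of_nonneg_right h3 (by norm_num)
    have h4 : 259200 / 6 ^ 8 * (Real.sqrt 5 * Real.pi ^ 2 * Real.log g ^ 2 / 2) / 25 =
        259200 / 6 ^ 8 * (Real.sqrt 5 * Real.pi ^ 2 * Real.log g ^ 2 / 50) := by ring
    linarith
  have hB' : (B.ncard : ℝ) ≤ (ε / 3 + ε / 3) * N := by
    refine hcard2.trans ?_
    have h1 : C' * η ^ (1 / 4 : ℝ) ≤ ε / 3 := by
      calc C' * η ^ (1 / 4 : ℝ) ≤ C' * δ := mul_le_mul_of_nonneg_left hη2 hC'.le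
        _ = ε / 3 := by rw [hδ]; field_simp
    have h2 : C' ≤ ε / 3 * t := by
      rw [div_le_iff₀ hε] at htC
      linarith
    have h3 : C' * t ^ 7 ≤ ε / 3 * N := by
      calc C' * t ^ 7 ≤ (ε / 3 * t) * t ^ 7 := mul_le_mul_of_nonneg_right h2 (by positivity)
        _ = ε / 3 * t ^ 8 := by ring
        _ = ε / 3 * N := by rw [htN]
    have h4 : C' * η ^ (1 / 4 : ℝ) * N ≤ ε / 3 * N := mul_le_mul_of_nonneg_right h1 hN0.le
    calc C' * (η ^ (1 / 4 : ℝ) * N + t ^ 7) = C' * η ^ (1 / 4 : ℝ) * N + C' * t ^ 7 := by ring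
      _ ≤ ε / 3 * N + ε / 3 * N := add_le_add h4 h3
      _ = (ε / 3 + ε / 3) * N := by ring
  calc ({m : O | ∃ v : V, Nrm N v ∧ fM v.1 v.2.1 v.2.2.1 v.2.2.2 = m}.ncard : ℝ) ≤
      (A.ncard : ℝ) + (B.ncard : ℝ) := hc1
    _ ≤ (259200 / 6 ^ 8 * (Real.sqrt 5 * Real.pi ^ 2 * Real.log g ^ 2 / 50) + ε / 3) * N +
        (ε / 3 + ε / 3) * N := add_le_add hA' hB'
    _ = (259200 / 6 ^ 8 * (Real.sqrt 5 * Real.pi ^ 2 * Real.log g ^ 2 / 50) + ε) * N := by ring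

end Pool.Agent.Leo4.H69
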